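import Mathlib

set_option autoImplicit false
open MeasureTheory ProbabilityTheory Filter Topology ENNReal

namespace W810.LP

/-- One step: multiply the generating polynomial `∑ u k X^k` by `1 + y X`. -/
def T (y : ℂ) (u : ℕ → ℂ) : ℕ → ℂ
  | 0 => u 0
  | (k+1) => u (k+1) + y * u k

/-- The coefficients of `(∑ w k X^k) * ∏_{i<m} (1 + v i X)`. -/
def A : ℕ → (ℕ → ℂ) → (ℕ → ℂ) → ℕ → ℂ
  | 0, w, _ => w
  | (m+1), w, v => T (v m) (A m w v)

lemma T_comm (x y : ℂ) (u : ℕ → ℂ) : T x (T y u) = T y (T x u) := by
  funext k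
  match k with
  | 0 => rfl
  | 1 => simp only [T]; ring
  | (k+2) => simp only [T]; ring

lemma A_T (m : ℕ) (y : ℂ) (w v : ℕ → ℂ) : A m (T y w) v = T y (A m w v) := by
  induction m with
  | zero => rfl
  | succ m ih => simp only [A]; rw [ih, T_comm]

lemma A_zero (m : ℕ) (w v : ℕ → ℂ) : A m w v 0 = w 0 := by
  induction m with
  | zero => rfl
  | succ m ih => simp only [A, T]; exact ih

lemma A_congr (m : ℕ) (w v v' : ℕ → ℂ) (h : ∀ i < m, v i = v' i) : A m w v = A m w v' := by
  induction m with
  | zero => rfl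
  | succ m ih =>
    simp only [A]
    rw [ih (fun i hi => h i (by omega)), h m (by omega)]

lemma A_esymm (n : ℕ) (v : ℕ → ℂ) (k : ℕ) :
    A n (fun j => if j = 0 then 1 else 0) v k
      = ∑ s ∈ (Finset.range n).powersetCard k, ∏ i ∈ s, v i := by
  induction n generalizing k with
  | zero =>
    cases k with
    | zero => simp [A]
    | succ k =>
      rw [Finset.powersetCard_eq_empty.mpr (by simp)]
      simp [A]
  | succ n ih =>
    cases k with
    | zero => rw [A_zero]; simp
    | succ k =>
      simp only [A, T]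
      rw [ih, ih, Finset.range_add_one, Finset.powersetCard_succ_insert (by simp),
        Finset.sum_union]
      · congr 1
        rw [Finset.sum_image]
        · rw [Finset.mul_sum]
          apply Finset.sum_congr rfl
          intro s hs
          rw [Finset.prod_insert]
          intro hn
          have := (Finset.mem_powersetCard.mp hs).1 hn
          simp at this
        · intro s hs t ht hst
          have hs' : n ∉ s := fun hn => by
            have := (Finset.mem_powersetCard.mp hs).1 hn
            simp at this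
          have ht' : n ∉ t := fun hn => by
            have := (Finset.mem_powersetCard.mp ht).1 hn
            simp at this
          have := congrArg (fun u => u.erase n) hst
          simpa [Finset.erase_insert hs', Finset.erase_insert ht'] using this
      · rw [Finset.disjoint_left]
        intro s hs hs'
        obtain ⟨t, ht, rfl⟩ := Finset.mem_image.mp hs'
        have := (Finset.mem_powersetCard.mp hs).1 (Finset.mem_insert_self n t)
        simp at this

/-- minus the logarithm of the modulus (positive part, `∞` at `0`) -/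
noncomputable def N (x : ℂ) : ℝ≥0∞ := if x = 0 then ⊤ else ENNReal.ofReal (-Real.log ‖x‖)

noncomputable def b (B : ℝ) (x : ℂ) : ℝ≥0∞ := min (ENNReal.ofReal B) (N x)

lemma measurable_N : Measurable N := by
  unfold N
  apply Measurable.ite (measurableSet_singleton (0:ℂ)) measurable_const
  fun_prop

lemma measurable_b (B : ℝ) : Measurable (b B) := measurable_const.min measurable_N

lemma b_le (B : ℝ) (x : ℂ) : b B x ≤ ENNReal.ofReal B := min_le_left _ _

lemma b_zero (B : ℝ) : b B 0 = ENNReal.ofReal B := by simp [b, N]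

lemma b_one (B : ℝ) : b B 1 = 0 := by simp [b, N]

lemma b_mul (B : ℝ) (x y : ℂ) : b B (x * y) ≤ b B x + N y := by
  by_cases hx : x = 0
  · subst hx
    rw [b_zero]
    exact (b_le _ _).trans le_self_add
  by_cases hy : y = 0
  · subst hy
    simp [N]
  have h1 : N (x * y) ≤ N x + N y := by
    simp only [N, hx, hy, mul_eq_zero, or_self, if_false]
    rw [norm_mul, Real.log_mul (by simpa using hx) (by simpa using hy), neg_add]
    exact ENNReal.ofReal_add_le
  unfold b
  rcases le_total (ENNReal.ofReal B) (N x) with h | h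
  · rw [min_eq_left h]
    exact (min_le_left _ _).trans le_self_add
  · rw [min_eq_right h]
    exact (min_le_right _ _).trans h1

section main

variable {Ω : Type*} [MeasurableSpace Ω] (P : Measure Ω) [IsProbabilityMeasure P]
  (Y : ℕ → Ω → ℂ)

noncomputable def G (B : ℝ) (m : ℕ) (w : ℕ → ℂ) (k : ℕ) : ℝ≥0∞ :=
  ∫⁻ ω, b B (A m w (fun i => Y i ω) k) ∂P

lemma measurable_A (hY : ∀ i, Measurable (Y i)) (m : ℕ) (w : ℕ → ℂ) (k : ℕ) :
    Measurable (fun ω => A m w (fun i => Y i ω) k) := by
  induction m generalizing k with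
  | zero => exact measurable_const
  | succ m ih =>
    cases k with
    | zero => simpa [A, T] using ih 0
    | succ k =>
      simp only [A, T]
      exact (ih (k+1)).add ((hY m).mul (ih k))

omit [MeasurableSpace Ω] in
lemma measurable_A' (m : ℕ) (w : ℕ → ℂ) (k : ℕ) (S : Finset ℕ) :
    Measurable (fun g : S → ℂ => A m w (fun i => if h : i ∈ S then g ⟨i, h⟩ else 0) k) := by
  induction m generalizing k with
  | zero => exact measurable_const
  | succ m ih =>
    have hm : Measurable (fun g : S → ℂ => if h : m ∈ S then g ⟨m, h⟩ else 0) := by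
      by_cases h : m ∈ S
      · simp only [h, dif_pos]
        exact measurable_pi_apply _
      · simp only [h, dif_neg, not_false_iff]
        exact measurable_const
    cases k with
    | zero => simpa [A, T] using ih 0
    | succ k =>
      simp only [A, T]
      exact (ih (k+1)).add (hm.mul (ih k))

/-- Peeling the last variable. -/
lemma peel (hY : ∀ i, Measurable (Y i)) (hI : iIndepFun Y P)
    (hD : ∀ i, IdentDistrib (Y i) (Y 0) P P) (B : ℝ) (m : ℕ) (w : ℕ → ℂ) (k : ℕ) :
    G P Y B (m+1) w (k+1) = ∫⁻ ω, ∫⁻ y, b B (A m w (fun i => Y i ω) (k+1)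
      + y * A m w (fun i => Y i ω) k) ∂(P.map (Y 0)) ∂P := by
  set Z : Ω → ℂ × ℂ := fun ω => (A m w (fun i => Y i ω) (k+1), A m w (fun i => Y i ω) k) with hZ
  have hZm : Measurable Z := (measurable_A Y hY m w (k+1)).prodMk (measurable_A Y hY m w k)
  have hind : IndepFun Z (Y m) P := by
    have h := hI.indepFun_finset (Finset.range m) {m} (by simp) hY
    have h1 : Measurable (fun g : (Finset.range m) → ℂ =>
      ((A m w (fun i => if h : i ∈ Finset.range m then g ⟨i, h⟩ else 0) (k+1),
        A m w (fun i => if h : i ∈ Finset.range m then g ⟨i, h⟩ else 0) k) : ℂ × ℂ)) :=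
      (measurable_A' m w (k+1) _).prodMk (measurable_A' m w k _)
    have h2 : Measurable (fun g : ({m} : Finset ℕ) → ℂ => g ⟨m, by simp⟩) :=
      measurable_pi_apply _
    have h3 := h.comp h1 h2
    have e1 : Z = (fun g : (Finset.range m) → ℂ =>
      ((A m w (fun i => if h : i ∈ Finset.range m then g ⟨i, h⟩ else 0) (k+1),
        A m w (fun i => if h : i ∈ Finset.range m then g ⟨i, h⟩ else 0) k) : ℂ × ℂ)) ∘
        (fun a (i : Finset.range m) => Y i a) := by
      funext ω
      simp only [hZ, Function.comp]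
      rw [A_congr m w (fun i => Y i ω)
        (fun i => if h : i ∈ Finset.range m then Y i ω else 0)]
      intro i hi
      simp [hi]
    rw [e1]
    exact h3
  have hmap := (indepFun_iff_map_prod_eq_prod_map_map hZm.aemeasurable
    (hY m).aemeasurable).mp hind
  rw [(hD m).map_eq] at hmap
  have hf : Measurable (fun p : (ℂ × ℂ) × ℂ => b B (p.1.1 + p.2 * p.1.2)) :=
    (measurable_b B).comp (by fun_prop)
  have : IsProbabilityMeasure (P.map (Y 0)) := Measure.isProbabilityMeasure_map (hY 0).aemeasurable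
  calc G P Y B (m+1) w (k+1)
      = ∫⁻ ω, (fun p : (ℂ × ℂ) × ℂ => b B (p.1.1 + p.2 * p.1.2)) (Z ω, Y m ω) ∂P := rfl
    _ = ∫⁻ p, b B (p.1.1 + p.2 * p.1.2) ∂(P.map (fun ω => (Z ω, Y m ω))) := by
        rw [lintegral_map hf (hZm.prodMk (hY m))]
    _ = ∫⁻ z, ∫⁻ y, b B (z.1 + y * z.2) ∂(P.map (Y 0)) ∂(P.map Z) := by
        rw [hmap, lintegral_prod _ hf.aemeasurable]
    _ = _ := by
        rw [lintegral_map (Measurable.lintegral_prod_right' hf) hZm]

/-- The inductive bound. -/
lemma bound (hY : ∀ i, Measurable (Y i)) (hI : iIndepFun Y P)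
    (hD : ∀ i, IdentDistrib (Y i) (Y 0) P P)
    (D : Set ℂ) (hDm : MeasurableSet D) (t : ℝ) (ht0 : 0 < t)
    (ht : P.map (Y 0) D = ENNReal.ofReal t) (C : ℝ) (hC0 : 0 ≤ C)
    (hC : ∀ c : ℂ, ∫⁻ y in D, N (y - c) ∂(P.map (Y 0)) ≤ ENNReal.ofReal C)
    (B : ℝ) (hB : 0 ≤ B) (m : ℕ) (w : ℕ → ℂ) (hw : w 0 = 1) (k : ℕ) :
    G P Y B m w k ≤ ENNReal.ofReal (B * (1 - t/2)^m * 2^k + k * (C/t)) := by
  have : IsProbabilityMeasure (P.map (Y 0)) := Measure.isProbabilityMeasure_map (hY 0).aemeasurable
  have ht1 : t ≤ 1 := by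
    have : ENNReal.ofReal t ≤ 1 := ht ▸ prob_le_one
    exact ENNReal.ofReal_le_one.mp this
  have htc : P.map (Y 0) Dᶜ = ENNReal.ofReal (1 - t) := by
    rw [prob_compl_eq_one_sub hDm, ht, ENNReal.ofReal_sub _ ht0.le, ENNReal.ofReal_one]
  have hr : 0 ≤ 1 - t/2 := by linarith
  induction m generalizing w k with
  | zero =>
    calc G P Y B 0 w k ≤ ∫⁻ _, ENNReal.ofReal B ∂P := lintegral_mono (fun _ => b_le _ _)
      _ = ENNReal.ofReal B := by simp
      _ ≤ _ := by
        apply ENNReal.ofReal_le_ofReal
        have h2 : (1:ℝ) ≤ 2^k := one_le_pow₀ (by norm_num)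
        have h3 : 0 ≤ (k:ℝ) * (C/t) := by positivity
        simp only [pow_zero, mul_one]
        nlinarith
  | succ m ih =>
    cases k with
    | zero =>
      have : G P Y B (m+1) w 0 = 0 := by
        unfold G
        simp only [A_zero, hw, b_one, lintegral_zero]
      rw [this]; simp
    | succ k =>
      rw [peel P Y hY hI hD]
      have hsplit : ∀ ω, ∫⁻ y, b B (A m w (fun i => Y i ω) (k+1)
          + y * A m w (fun i => Y i ω) k) ∂(P.map (Y 0))
        = (∫⁻ y in D, b B (A m w (fun i => Y i ω) (k+1)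
          + y * A m w (fun i => Y i ω) k) ∂(P.map (Y 0)))
        + ∫⁻ y in Dᶜ, b B (A m w (fun i => Y i ω) (k+1)
          + y * A m w (fun i => Y i ω) k) ∂(P.map (Y 0)) := fun ω =>
        (lintegral_add_compl _ hDm).symm
      have hA1 := measurable_A Y hY m w (k+1)
      have hA0 := measurable_A Y hY m w k
      have hjm : Measurable (fun p : Ω × ℂ => b B (A m w (fun i => Y i p.1) (k+1)
          + p.2 * A m w (fun i => Y i p.1) k)) :=
        (measurable_b B).comp ((hA1.comp measurable_fst).add
          (measurable_snd.mul (hA0.comp measurable_fst)))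
      simp_rw [hsplit]
      rw [lintegral_add_left (Measurable.lintegral_prod_right' hjm)]
      have hDpart : ∫⁻ ω, ∫⁻ y in D, b B (A m w (fun i => Y i ω) (k+1)
          + y * A m w (fun i => Y i ω) k) ∂(P.map (Y 0)) ∂P
          ≤ ENNReal.ofReal t * G P Y B m w k + ENNReal.ofReal C := by
        have hpt : ∀ ω, ∫⁻ y in D, b B (A m w (fun i => Y i ω) (k+1)
          + y * A m w (fun i => Y i ω) k) ∂(P.map (Y 0))
          ≤ ENNReal.ofReal t * b B (A m w (fun i => Y i ω) k) + ENNReal.ofReal C := by
          intro ω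
          generalize A m w (fun i => Y i ω) (k+1) = z1
          generalize A m w (fun i => Y i ω) k = z2
          by_cases hz : z2 = 0
          · subst hz
            calc ∫⁻ y in D, b B (z1 + y * 0) ∂(P.map (Y 0))
                ≤ ∫⁻ y in D, ENNReal.ofReal B ∂(P.map (Y 0)) := lintegral_mono (fun _ => b_le _ _)
              _ = ENNReal.ofReal t * b B 0 := by
                  rw [setLIntegral_const, ht, b_zero, mul_comm]
              _ ≤ _ := le_self_add
          · calc ∫⁻ y in D, b B (z1 + y * z2) ∂(P.map (Y 0))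
                ≤ ∫⁻ y in D, (b B z2 + N (y - (-(z1/z2)))) ∂(P.map (Y 0)) := by
                  apply lintegral_mono
                  intro y
                  have : z1 + y * z2 = z2 * (y - (-(z1/z2))) := by field_simp; ring
                  simp only []
                  rw [this]
                  exact b_mul _ _ _
              _ = ENNReal.ofReal t * b B z2 + ∫⁻ y in D, N (y - (-(z1/z2))) ∂(P.map (Y 0)) := by
                  rw [lintegral_add_left measurable_const, setLIntegral_const, ht, mul_comm]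
              _ ≤ _ := by gcongr; exact hC _
        calc _ ≤ ∫⁻ ω, (ENNReal.ofReal t * b B (A m w (fun i => Y i ω) k) + ENNReal.ofReal C) ∂P :=
              lintegral_mono hpt
          _ = ENNReal.ofReal t * G P Y B m w k + ENNReal.ofReal C := by
              rw [lintegral_add_right _ measurable_const, lintegral_const_mul
                (f := fun ω => b B (A m w (fun i => Y i ω) k)) (ENNReal.ofReal t)
                ((measurable_b B).comp hA0)]
              simp [G]
      have hCpart : ∫⁻ ω, ∫⁻ y in Dᶜ, b B (A m w (fun i => Y i ω) (k+1)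
          + y * A m w (fun i => Y i ω) k) ∂(P.map (Y 0)) ∂P
          ≤ ENNReal.ofReal (1 - t) *
            ENNReal.ofReal (B * (1 - t/2)^m * 2^(k+1) + ((k+1 : ℕ):ℝ) * (C/t)) := by
        rw [lintegral_lintegral_swap hjm.aemeasurable]
        calc _ ≤ ∫⁻ y in Dᶜ, ENNReal.ofReal (B * (1 - t/2)^m * 2^(k+1) + ((k+1 : ℕ):ℝ) * (C/t))
                ∂(P.map (Y 0)) := by
              apply lintegral_mono
              intro y
              have := ih (T y w) (by simpa [T] using hw) (k+1)
              unfold G at this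
              simp_rw [A_T] at this
              exact this
          _ = _ := by rw [setLIntegral_const, htc, mul_comm]
      refine (add_le_add hDpart hCpart).trans ?_
      have hG := ih w hw k
      calc _ ≤ ENNReal.ofReal t * ENNReal.ofReal (B * (1 - t/2)^m * 2^k + (k:ℝ) * (C/t))
              + ENNReal.ofReal C + ENNReal.ofReal (1 - t) *
            ENNReal.ofReal (B * (1 - t/2)^m * 2^(k+1) + ((k+1 : ℕ):ℝ) * (C/t)) := by gcongr
        _ = ENNReal.ofReal (t * (B * (1 - t/2)^m * 2^k + (k:ℝ) * (C/t)) + C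
              + (1-t) * (B * (1 - t/2)^m * 2^(k+1) + ((k+1 : ℕ):ℝ) * (C/t))) := by
            have p1 : 0 ≤ (B * (1 - t/2)^m * 2^k + (k:ℝ) * (C/t)) := by positivity
            have p2 : 0 ≤ (B * (1 - t/2)^m * 2^(k+1) + ((k+1 : ℕ):ℝ) * (C/t)) := by positivity
            have p3 : 0 ≤ 1 - t := by linarith
            revert p1 p2
            generalize (B * (1 - t/2)^m * 2^k + (k:ℝ) * (C/t)) = u1
            generalize (B * (1 - t/2)^m * 2^(k+1) + ((k+1 : ℕ):ℝ) * (C/t)) = u2
            intro p1 p2
            rw [ENNReal.ofReal_add (by positivity) (by positivity),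
              ENNReal.ofReal_add (by positivity) hC0, ENNReal.ofReal_mul ht0.le,
              ENNReal.ofReal_mul p3]
        _ = _ := by
            congr 1
            push_cast
            field_simp
            ring

end main

/-- Quantitative form: `P(|e_k| ≤ e^{-L}) ≤ (1 - t/2)^n 2^k + k C / (t L)`. -/
theorem quant (Ω : Type) [MeasurableSpace Ω] (P : Measure Ω) [IsProbabilityMeasure P]
      (Y : ℕ → Ω → ℂ) (hY : ∀ i, Measurable (Y i)) (hI : iIndepFun Y P)
      (hD : ∀ i, IdentDistrib (Y i) (Y 0) P P)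
      (D : Set ℂ) (hDm : MeasurableSet D) (hpos : 0 < P {ω | Y 0 ω ∈ D})
      (hat : ∀ c : ℂ, P {ω | Y 0 ω ∈ D ∧ Y 0 ω = c} = 0) (C : ℝ) (hC0 : 0 ≤ C)
      (hC : ∀ c : ℂ, ∫⁻ ω in {ω | Y 0 ω ∈ D}, ENNReal.ofReal (-Real.log ‖Y 0 ω - c‖) ∂P
        ≤ ENNReal.ofReal C) (n k : ℕ) (L : ℝ) (hL : 0 < L) :
      P {ω | ‖∑ s ∈ (Finset.range n).powersetCard k, ∏ i ∈ s, Y i ω‖ ≤ Real.exp (-L)}
        ≤ ENNReal.ofReal ((1 - (P {ω | Y 0 ω ∈ D}).toReal / 2)^n * 2^k
            + k * C / ((P {ω | Y 0 ω ∈ D}).toReal * L)) := by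
  set t : ℝ := (P {ω | Y 0 ω ∈ D}).toReal with htdef
  have htop : P {ω | Y 0 ω ∈ D} ≠ ⊤ := measure_ne_top _ _
  have ht0 : 0 < t := ENNReal.toReal_pos hpos.ne' htop
  have ht : P.map (Y 0) D = ENNReal.ofReal t := by
    rw [Measure.map_apply (hY 0) hDm, htdef, ENNReal.ofReal_toReal htop]
    rfl
  have hC' : ∀ c : ℂ, ∫⁻ y in D, N (y - c) ∂(P.map (Y 0)) ≤ ENNReal.ofReal C := by
    intro c
    have hne : ∀ᵐ y ∂((P.map (Y 0)).restrict D), y ≠ c := by
      rw [ae_iff]
      simp only [not_not]
      have hs : {y : ℂ | y = c} = {c} := by ext; simp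
      rw [hs, Measure.restrict_apply (measurableSet_singleton c),
        Measure.map_apply (hY 0) ((measurableSet_singleton c).inter hDm)]
      have := hat c
      convert this using 2
      ext ω
      simp [and_comm]
    calc ∫⁻ y in D, N (y - c) ∂(P.map (Y 0))
        = ∫⁻ y in D, ENNReal.ofReal (-Real.log ‖y - c‖) ∂(P.map (Y 0)) := by
          apply lintegral_congr_ae
          filter_upwards [hne] with y hy
          simp [N, sub_eq_zero, hy]
      _ = ∫⁻ ω in {ω | Y 0 ω ∈ D}, ENNReal.ofReal (-Real.log ‖Y 0 ω - c‖) ∂P := by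
          rw [setLIntegral_map hDm (by fun_prop) (hY 0)]
          rfl
      _ ≤ _ := hC c
  have hb := bound P Y hY hI hD D hDm t ht0 ht C hC0 hC' L hL.le n
    (fun j => if j = 0 then 1 else 0) (by simp) k
  unfold G at hb
  simp_rw [A_esymm] at hb
  set e : Ω → ℂ := fun ω => ∑ s ∈ (Finset.range n).powersetCard k, ∏ i ∈ s, Y i ω with he
  have hem : Measurable e := by
    apply Finset.measurable_sum
    intro s _
    exact Finset.measurable_prod _ (fun i _ => hY i)
  have hsub : {ω | ‖e ω‖ ≤ Real.exp (-L)} ⊆ {ω | ENNReal.ofReal L ≤ b L (e ω)} := by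
    intro ω hω
    simp only [Set.mem_ofPred_eq] at hω ⊢
    unfold b
    apply le_min le_rfl
    unfold N
    split_ifs with h0
    · exact le_top
    · apply ENNReal.ofReal_le_ofReal
      have hpos : 0 < ‖e ω‖ := norm_pos_iff.mpr h0
      have := Real.log_le_log hpos hω
      rw [Real.log_exp] at this
      linarith
  have hmk := mul_meas_ge_le_lintegral (μ := P) ((measurable_b L).comp hem) (ENNReal.ofReal L)
  have hL' : ENNReal.ofReal L ≠ 0 := by simpa using hL
  have h1 : ENNReal.ofReal L * P {ω | ‖e ω‖ ≤ Real.exp (-L)} ≤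
      ENNReal.ofReal (L * (1 - t/2)^n * 2^k + k * (C/t)) :=
    (mul_le_mul_right (measure_mono hsub) _).trans (hmk.trans hb)
  have hr : ENNReal.ofReal (L * (1 - t/2)^n * 2^k + k * (C/t))
      = ENNReal.ofReal L * ENNReal.ofReal ((1 - t/2)^n * 2^k + k * C / (t * L)) := by
    rw [← ENNReal.ofReal_mul hL.le]
    congr 1
    field_simp
  rw [hr] at h1
  exact (ENNReal.mul_le_mul_iff_right hL' ENNReal.ofReal_ne_top).mp h1

end W810.LP
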