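import Pool.Agent.W810.LP

set_option autoImplicit false
open MeasureTheory ProbabilityTheory Filter Topology ENNReal

namespace W810.LP

/-- The limit form. -/
theorem limit_form (Ω : Type) [MeasurableSpace Ω] (P : Measure Ω) [IsProbabilityMeasure P]
      (Y : ℕ → Ω → ℂ) (hY : ∀ i, Measurable (Y i)) (hI : iIndepFun Y P)
      (hD : ∀ i, IdentDistrib (Y i) (Y 0) P P)
      (D : Set ℂ) (hDm : MeasurableSet D) (hpos : 0 < P {ω | Y 0 ω ∈ D})
      (hat : ∀ c : ℂ, P {ω | Y 0 ω ∈ D ∧ Y 0 ω = c} = 0) (C : ℝ) (hC0 : 0 ≤ C)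
      (hC : ∀ c : ℂ, ∫⁻ ω in {ω | Y 0 ω ∈ D}, ENNReal.ofReal (-Real.log ‖Y 0 ω - c‖) ∂P
        ≤ ENNReal.ofReal C) (k : ℕ → ℕ)
      (hk : Tendsto (fun n : ℕ => (k n : ℝ) / (n : ℝ)) atTop (𝓝 0)) (ε : ℝ) (hε : 0 < ε) :
      Tendsto (fun n : ℕ => P {ω | ‖∑ s ∈ (Finset.range n).powersetCard (k n), ∏ i ∈ s, Y i ω‖
                    ≤ Real.exp (-(ε * (n : ℝ)))}) atTop (𝓝 0) := by
  set t : ℝ := (P {ω | Y 0 ω ∈ D}).toReal with htdef
  have htop : P {ω | Y 0 ω ∈ D} ≠ ⊤ := measure_ne_top _ _
  have ht0 : 0 < t := ENNReal.toReal_pos hpos.ne' htop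
  have ht1 : t ≤ 1 := by
    have : P {ω | Y 0 ω ∈ D} ≤ 1 := prob_le_one
    exact ENNReal.toReal_le_of_le_ofReal zero_le_one (by simpa using this)
  have hr0 : 0 < 1 - t/2 := by linarith
  have hr1 : 1 - t/2 < 1 := by linarith
  have hup : Tendsto (fun n : ℕ => ENNReal.ofReal ((1 - t / 2)^n * 2^(k n)
            + (k n : ℝ) * C / (t * (ε * (n:ℝ))))) atTop (𝓝 0) := by
    have e0 : (0 : ℝ≥0∞) = ENNReal.ofReal (0 + 0) := by simp
    rw [e0]
    apply ENNReal.tendsto_ofReal
    apply Tendsto.add
    · have h1 : Tendsto (fun n : ℕ => (n : ℝ) * (Real.log (1 - t/2) + (k n : ℝ) / n * Real.log 2))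
          atTop atBot := by
        have hl : Tendsto (fun n : ℕ => Real.log (1 - t/2) + (k n : ℝ) / n * Real.log 2)
            atTop (𝓝 (Real.log (1 - t/2) + 0 * Real.log 2)) :=
          tendsto_const_nhds.add (hk.mul_const _)
        apply Tendsto.atTop_mul_neg _ tendsto_natCast_atTop_atTop hl
        have := Real.log_neg hr0 hr1
        simpa using this
      have h2 := Real.tendsto_exp_atBot.comp h1
      apply h2.congr'
      filter_upwards [eventually_gt_atTop 0] with n hn
      have hn' : (0:ℝ) < n := by exact_mod_cast hn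
      simp only [Function.comp]
      have : (n : ℝ) * (Real.log (1 - t/2) + (k n : ℝ) / n * Real.log 2)
          = (n:ℝ) * Real.log (1 - t/2) + (k n : ℝ) * Real.log 2 := by field_simp
      rw [this, Real.exp_add, mul_comm (n:ℝ), mul_comm (k n:ℝ), Real.exp_mul, Real.exp_mul,
        Real.exp_log hr0, Real.exp_log (by norm_num)]
      simp
    · have h1 : Tendsto (fun n : ℕ => (k n : ℝ) / n * (C / (t * ε))) atTop (𝓝 (0 * (C / (t * ε)))) :=
        hk.mul_const _
      rw [zero_mul] at h1
      apply h1.congr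
      intro n
      by_cases hn : (n:ℝ) = 0
      · simp [hn]
      · field_simp
  apply tendsto_of_tendsto_of_tendsto_of_le_of_le' tendsto_const_nhds hup
  · exact Eventually.of_forall (fun n => by simp)
  · filter_upwards [eventually_gt_atTop 0] with n hn
    have hn' : (0:ℝ) < n := by exact_mod_cast hn
    exact quant Ω P Y hY hI hD D hDm hpos hat C hC0 hC n (k n) (ε * n) (by positivity)

/-- A Frostman type condition bounds the logarithmic potential. -/
lemma frostman {Ω : Type} [MeasurableSpace Ω] (P : Measure Ω) [IsProbabilityMeasure P]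
    (X : Ω → ℂ) (hX : Measurable X) (D : Set ℂ) (hDm : MeasurableSet D)
    (K s : ℝ) (hs : 0 < s) (hK : 0 ≤ K)
    (h : ∀ (c : ℂ) (r : ℝ), 0 < r → P {ω | X ω ∈ D ∧ ‖X ω - c‖ ≤ r} ≤ ENNReal.ofReal (K * r ^ s)) :
    (∀ c : ℂ, P {ω | X ω ∈ D ∧ X ω = c} = 0) ∧
    ∀ c : ℂ, ∫⁻ ω in {ω | X ω ∈ D}, ENNReal.ofReal (-Real.log ‖X ω - c‖) ∂P
        ≤ ENNReal.ofReal (K / s) := by
  constructor
  · intro c
    have h1 : ∀ n : ℕ, P {ω | X ω ∈ D ∧ X ω = c} ≤ ENNReal.ofReal (K * (1/((n:ℝ)+1)) ^ s) := by
      intro n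
      refine (measure_mono ?_).trans (h c (1/((n:ℝ)+1)) (by positivity))
      intro ω hω
      refine ⟨hω.1, ?_⟩
      rw [hω.2]; simp; positivity
    have h2 : Tendsto (fun n : ℕ => ENNReal.ofReal (K * (1/((n:ℝ)+1)) ^ s)) atTop (𝓝 0) := by
      have e0 : (0 : ℝ≥0∞) = ENNReal.ofReal (K * 0 ^ s) := by
        rw [Real.zero_rpow hs.ne']; simp
      rw [e0]
      apply ENNReal.tendsto_ofReal
      apply Filter.Tendsto.const_mul
      exact (tendsto_one_div_add_atTop_nhds_zero_nat).rpow_const (Or.inr hs.le)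
    exact le_antisymm (ge_of_tendsto' h2 h1) bot_le
  · intro c
    have hDm' : MeasurableSet {ω | X ω ∈ D} := hX hDm
    have hpt : ∀ ω, ENNReal.ofReal (-Real.log ‖X ω - c‖)
        = ENNReal.ofReal (max (-Real.log ‖X ω - c‖) 0) := by
      intro ω
      rw [ENNReal.ofReal_max]
      simp
    simp_rw [hpt]
    rw [lintegral_eq_lintegral_meas_lt]
    rotate_left
    · exact Eventually.of_forall (fun ω => le_max_right _ _)
    · apply Measurable.aemeasurable; fun_prop
    calc ∫⁻ u in Set.Ioi (0:ℝ), (P.restrict {ω | X ω ∈ D}) {ω | u < max (-Real.log ‖X ω - c‖) 0}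
        ≤ ∫⁻ u in Set.Ioi (0:ℝ), ENNReal.ofReal (K * Real.exp (-s * u)) := by
          apply setLIntegral_mono (by fun_prop)
          intro u hu
          have hu' : (0:ℝ) < u := hu
          rw [Measure.restrict_apply' hDm']
          calc P ({ω | u < max (-Real.log ‖X ω - c‖) 0} ∩ {ω | X ω ∈ D})
              ≤ P {ω | X ω ∈ D ∧ ‖X ω - c‖ ≤ Real.exp (-u)} := by
                apply measure_mono
                rintro ω ⟨h1, h2⟩
                refine ⟨h2, ?_⟩
                simp only [Set.mem_ofPred_eq] at h1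
                have h3 : u < -Real.log ‖X ω - c‖ := by
                  rcases lt_max_iff.mp h1 with h | h
                  · exact h
                  · linarith
                have h4 : 0 < ‖X ω - c‖ := by
                  rcases (norm_nonneg (X ω - c)).lt_or_eq with h | h
                  · exact h
                  · rw [← h] at h3; simp at h3; linarith
                rw [← Real.exp_log h4]
                apply Real.exp_le_exp.mpr
                linarith
            _ ≤ ENNReal.ofReal (K * (Real.exp (-u)) ^ s) := h c _ (Real.exp_pos _)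
            _ = _ := by
                rw [← Real.exp_mul]
                congr 3
                ring
      _ = ENNReal.ofReal (∫ u in Set.Ioi (0:ℝ), K * Real.exp (-s * u)) := by
          rw [ofReal_integral_eq_lintegral_ofReal]
          · exact (exp_neg_integrableOn_Ioi 0 hs).const_mul K
          · exact Eventually.of_forall (fun u => by positivity)
      _ = ENNReal.ofReal (K / s) := by
          congr 1
          rw [integral_const_mul, integral_exp_mul_Ioi (by linarith) 0]
          simp
          ring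

/-- A law that is not singular to Lebesgue measure has a Frostman piece. -/
lemma ac_piece {Ω : Type} [MeasurableSpace Ω] (P : Measure Ω) [IsProbabilityMeasure P]
    (X : Ω → ℂ) (hX : Measurable X) (h : ¬ (P.map X) ⟂ₘ (volume : Measure ℂ)) :
    ∃ D : Set ℂ, MeasurableSet D ∧ 0 < P {ω | X ω ∈ D} ∧ ∃ K : ℝ, 0 ≤ K ∧
      ∀ (c : ℂ) (r : ℝ), 0 < r →
        P {ω | X ω ∈ D ∧ ‖X ω - c‖ ≤ r} ≤ ENNReal.ofReal (K * r ^ (2:ℝ)) := by
  have : IsProbabilityMeasure (P.map X) := Measure.isProbabilityMeasure_map hX.aemeasurable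
  set μ := P.map X with hμ
  set f := μ.rnDeriv (volume : Measure ℂ) with hf
  have hfm : Measurable f := Measure.measurable_rnDeriv _ _
  obtain ⟨S, hSm, hS1, hS2⟩ := Measure.mutuallySingular_singularPart μ (volume : Measure ℂ)
  have hdec : μ = μ.singularPart volume + (volume : Measure ℂ).withDensity f :=
    Measure.haveLebesgueDecomposition_add _ _
  have key : ∀ E : Set ℂ, MeasurableSet E → μ (S ∩ E) = ∫⁻ x in E, f x := by
    intro E hE
    have h0 : μ.singularPart volume (S ∩ E) = 0 := measure_mono_null Set.inter_subset_left hS1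
    have h1 : (volume : Measure ℂ).withDensity f (S ∩ E)
        = ∫⁻ x in E, f x := by
      rw [withDensity_apply _ (hSm.inter hE)]
      apply setLIntegral_congr
      have hSae : ∀ᵐ x ∂(volume : Measure ℂ), x ∈ S := by
        rw [ae_iff]; exact hS2
      apply Filter.eventuallyEq_set.mpr
      filter_upwards [hSae] with x hx
      simp [hx]
    calc μ (S ∩ E) = (μ.singularPart volume + (volume : Measure ℂ).withDensity f) (S ∩ E) := by
          rw [← hdec]
      _ = _ := by rw [Measure.add_apply, h0, h1, zero_add]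
  have hne : ¬ f =ᵐ[volume] 0 := by
    intro h0
    exact h ((Measure.rnDeriv_eq_zero μ volume).mp h0)
  -- level sets
  have hex : ∃ M : ℕ, 0 < ∫⁻ x in {x | f x ≤ M}, f x := by
    by_contra hcon
    push Not at hcon
    apply hne
    have h1 : ∀ M : ℕ, ∀ᵐ x ∂(volume : Measure ℂ), f x ≤ M → f x = 0 := by
      intro M
      have hz : ∫⁻ x in {x | f x ≤ M}, f x = 0 := le_antisymm (hcon M) bot_le
      rw [lintegral_eq_zero_iff hfm] at hz
      have := (ae_restrict_iff' (measurableSet_le hfm measurable_const)).mp hz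
      exact this
    have h2 := ae_all_iff.mpr h1
    filter_upwards [h2, Measure.rnDeriv_lt_top μ volume] with x hx hx'
    obtain ⟨M, hM⟩ := ENNReal.exists_nat_gt hx'.ne
    exact hx M hM.le
  obtain ⟨M, hM⟩ := hex
  have hLm : MeasurableSet {x | f x ≤ M} := measurableSet_le hfm measurable_const
  refine ⟨S ∩ {x | f x ≤ M}, hSm.inter hLm, ?_, M * Real.pi, by positivity, ?_⟩
  · have := key _ hLm
    rw [hμ, Measure.map_apply hX (hSm.inter hLm)] at this
    change 0 < P (X ⁻¹' _)
    rw [this]
    exact hM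
  · intro c r hr
    have hball : MeasurableSet (Metric.closedBall c r) := Metric.isClosed_closedBall.measurableSet
    calc P {ω | X ω ∈ S ∩ {x | f x ≤ M} ∧ ‖X ω - c‖ ≤ r}
        = μ (S ∩ ({x | f x ≤ M} ∩ Metric.closedBall c r)) := by
          rw [hμ, Measure.map_apply hX (hSm.inter (hLm.inter hball))]
          congr 1
          ext ω
          simp [dist_eq_norm, and_assoc]
      _ = ∫⁻ x in {x | f x ≤ M} ∩ Metric.closedBall c r, f x := key _ (hLm.inter hball)
      _ ≤ ∫⁻ x in {x | f x ≤ M} ∩ Metric.closedBall c r, (M:ℝ≥0∞) := by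
          apply setLIntegral_mono measurable_const
          intro x hx
          exact hx.1
      _ = M * volume ({x | f x ≤ M} ∩ Metric.closedBall c r) := by
          rw [setLIntegral_const]
      _ ≤ M * volume (Metric.closedBall c r) := by gcongr; exact Set.inter_subset_right
      _ = ENNReal.ofReal (M * Real.pi * r ^ (2:ℝ)) := by
          rw [Complex.volume_closedBall]
          rw [ENNReal.ofReal_mul (by positivity), ENNReal.ofReal_mul (by positivity),
            ENNReal.ofReal_natCast]
          have : ENNReal.ofReal (r ^ (2:ℝ)) = ENNReal.ofReal r ^ 2 := by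
            rw [← ENNReal.ofReal_pow hr.le]; norm_num
          rw [this, mul_assoc, mul_comm (ENNReal.ofReal r ^ 2)]
          congr 2
          rw [ENNReal.ofReal, Real.toNNReal_of_nonneg Real.pi_pos.le]
          rfl

end W810.LP
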